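import Mathlib
import Pool.Agent.U239.BL.Stm
import Pool.Agent.N852.GR.Lat
import Pool.Agent.N852.GR.EngT
import Pool.Agent.N852.GR.Ctt

set_option autoImplicit false

/-!
Project BL, package PIG (helper187): lower bound for the number of solutions by the pigeonhole principle.
-/

namespace Pool.Agent.U187.BL

open scoped Classical
open NumberField Module Matrix
open Pool.Agent.N852.GR Pool.Agent.U239.BL

variable {F : Type} [Field F] [NumberField F]

omit [NumberField F] in
theorem w_sum_le {ι : Type} (s : Finset ι) (f : ι → F) (w : InfinitePlace F) :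
    w (∑ i ∈ s, f i) ≤ ∑ i ∈ s, w (f i) :=
  w.1.sum_le s f

theorem coe_sum' {ι : Type} (s : Finset ι) (f : ι → 𝓞 F) :
    ((∑ i ∈ s, f i : 𝓞 F) : F) = ∑ i ∈ s, (f i : F) :=
  map_sum (algebraMap (𝓞 F) F) f s

theorem coe_mul' (a b : 𝓞 F) : ((a * b : 𝓞 F) : F) = (a : F) * (b : F) :=
  map_mul (algebraMap (𝓞 F) F) a b

/-- many integral vectors of bounded size -/
theorem many (F : Type) [Field F] [NumberField F] : ∃ S : ℝ, 1 ≤ S ∧ ∀ (n q : ℕ) (B : ℝ),
    q * S ≤ B → ((q : ℝ) ^ (finrank ℚ F * n)) ≤ ({x : Fin n → 𝓞 F | ‖io x‖ ≤ B}.ncard : ℝ) := by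
  let b := Module.finBasis ℤ (𝓞 F)
  have hD : finrank ℤ (𝓞 F) = finrank ℚ F := RingOfIntegers.rank F
  obtain ⟨S, hS⟩ : ∃ S : ℝ, S = 1 + ∑ w : InfinitePlace F, ∑ j, w (b j : F) := ⟨_, rfl⟩
  have hS0 : 0 ≤ ∑ w : InfinitePlace F, ∑ j, w (b j : F) :=
    Finset.sum_nonneg fun w _ => Finset.sum_nonneg fun j _ => apply_nonneg w _
  have hSw : ∀ w : InfinitePlace F, ∑ j, w (b j : F) ≤ S := by
    intro w
    have h1 := Finset.single_le_sum (f := fun w : InfinitePlace F => ∑ j, w (b j : F))
      (fun w _ => Finset.sum_nonneg fun j _ => apply_nonneg w _) (Finset.mem_univ w)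
    linarith
  refine ⟨S, by linarith, fun n q B hB => ?_⟩
  have hS1 : 1 ≤ S := by linarith
  have hB0 : 0 ≤ B := le_trans (by positivity) hB
  let vec : (Fin n → Fin (finrank ℤ (𝓞 F)) → Fin q) → Fin n → 𝓞 F :=
    fun m i => b.equivFun.symm (fun j => ((m i j : ℕ) : ℤ))
  have hinj : Function.Injective vec := by
    intro m m' h
    funext i j
    have h1 := b.equivFun.symm.injective (congrFun h i)
    have h2 := congrFun h1 j
    simp only [Nat.cast_inj] at h2
    exact Fin.ext h2
  have hvec : ∀ m, ‖io (vec m)‖ ≤ B := by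
    intro m
    refine Ctt.io_le _ B hB0 fun i w => le_trans ?_ hB
    have h1 : ((vec m i : 𝓞 F) : F) = ∑ j, ((m i j : ℕ) : F) * (b j : F) := by
      change ((b.equivFun.symm (fun j => ((m i j : ℕ) : ℤ)) : 𝓞 F) : F) = _
      rw [Basis.equivFun_symm_apply, coe_sum']
      refine Finset.sum_congr rfl fun j _ => ?_
      rw [zsmul_eq_mul, coe_mul']
      simp
    rw [h1]
    refine (w_sum_le _ _ w).trans ?_
    calc ∑ j, w (((m i j : ℕ) : F) * (b j : F)) ≤ ∑ j, (q : ℝ) * w (b j : F) := by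
          refine Finset.sum_le_sum fun j _ => ?_
          rw [map_mul]
          refine mul_le_mul_of_nonneg_right ?_ (apply_nonneg w _)
          have h2 : w ((m i j : ℕ) : F) = ((m i j : ℕ) : ℝ) := by
            rw [← InfinitePlace.norm_embedding_eq w, map_natCast, Complex.norm_natCast]
          rw [h2]
          exact_mod_cast (m i j).2.le
      _ = q * ∑ j, w (b j : F) := by rw [Finset.mul_sum]
      _ ≤ q * S := mul_le_mul_of_nonneg_left (hSw w) (by positivity)
  have hfin := lat_fin (F := F) n B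
  have hcard : Fintype.card (Fin n → Fin (finrank ℤ (𝓞 F)) → Fin q) ≤
      {x : Fin n → 𝓞 F | ‖io x‖ ≤ B}.ncard := by
    rw [Set.ncard_eq_toFinset_card _ hfin, ← Finset.card_univ]
    refine Finset.card_le_card_of_injOn vec (fun m _ => ?_) hinj.injOn
    rw [Finset.mem_coe, Set.Finite.mem_toFinset]
    exact hvec m
  have hc2 : Fintype.card (Fin n → Fin (finrank ℤ (𝓞 F)) → Fin q) = q ^ (finrank ℚ F * n) := by
    rw [Fintype.card_fun, Fintype.card_fun, Fintype.card_fin, Fintype.card_fin, Fintype.card_fin,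
      hD, pow_mul]
  rw [hc2] at hcard
  exact_mod_cast hcard

/-- PIG: lower bound for the number of the solutions by the pigeonhole principle. -/
theorem t_PIG (F : Type) [Field F] [NumberField F] : S_PIG F := by
  intro n k hkn
  obtain ⟨S, hS1, hmany⟩ := many F
  obtain ⟨d, hd⟩ : ∃ d : ℕ, d = finrank ℚ F := ⟨_, rfl⟩
  rw [← hd] at hmany
  have h4S : 1 ≤ 4 * S := by linarith
  have hn6 : (1 : ℝ) ≤ 6 * ((n : ℝ) + 1) := by
    have : (0 : ℝ) ≤ n := Nat.cast_nonneg n
    linarith
  obtain ⟨P, hP⟩ : ∃ P : ℝ, P = (4 * S) ^ (d * n) := ⟨_, rfl⟩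
  obtain ⟨Q, hQ⟩ : ∃ Q : ℝ, Q = (6 * ((n : ℝ) + 1)) ^ (d * k) := ⟨_, rfl⟩
  have hP1 : 1 ≤ P := by rw [hP]; exact one_le_pow₀ h4S
  have hQ1 : 1 ≤ Q := by rw [hQ]; exact one_le_pow₀ hn6
  refine ⟨(P * Q)⁻¹, by positivity, fun u X R hX hR hu => ?_⟩
  rw [← hd]
  have hblfin : (bl (KL u) R).Finite := (lat_fin (F := F) n R).subset fun x hx => hx.2
  obtain ⟨N, hN⟩ : ∃ N : ℕ, N = (bl (KL u) R).ncard := ⟨_, rfl⟩
  rw [← hN]
  have hN1 : 1 ≤ N := by
    rw [hN, Nat.one_le_iff_ne_zero, Ne, Set.ncard_eq_zero hblfin]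
    intro h0
    have : (0 : Fin n → 𝓞 F) ∈ bl (KL u) R := by
      refine ⟨(KL u).zero_mem, ?_⟩
      have h1 : io (0 : Fin n → 𝓞 F) = 0 := by
        funext i
        change mixedEmbedding F ((0 : 𝓞 F) : F) = 0
        rw [show ((0 : 𝓞 F) : F) = 0 from rfl, map_zero]
      rw [h1, norm_zero]
      linarith
    rw [h0] at this
    exact this
  have hN1' : (1 : ℝ) ≤ N := by exact_mod_cast hN1
  have hY1 : 1 ≤ X ^ (d * k) := one_le_pow₀ hX
  have hPQ : 0 < P * Q := by positivity
  rw [div_le_iff₀ (by positivity), inv_mul_le_iff₀ hPQ]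
  rcases lt_or_ge R (2 * S) with hRS | hRS
  · -- small R
    have h1 : R ^ (d * (n - k)) ≤ P := by
      rw [hP]
      calc R ^ (d * (n - k)) ≤ (4 * S) ^ (d * (n - k)) :=
            pow_le_pow_left₀ (by linarith) (by linarith) _
        _ ≤ (4 * S) ^ (d * n) :=
            pow_le_pow_right₀ h4S (Nat.mul_le_mul_left d (Nat.sub_le n k))
    calc R ^ (d * (n - k)) ≤ P := h1
      _ = P * 1 * (1 * 1) := by ring
      _ ≤ P * Q * (N * X ^ (d * k)) := by gcongr
  · -- large R
    obtain ⟨q, hq⟩ : ∃ q : ℕ, q = ⌊R / (2 * S)⌋₊ := ⟨_, rfl⟩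
    have h2S : 0 < 2 * S := by linarith
    have hy1 : 1 ≤ R / (2 * S) := by rw [le_div_iff₀ h2S]; linarith
    have hq1 : (q : ℝ) ≤ R / (2 * S) := by rw [hq]; exact Nat.floor_le (by linarith)
    have hq2 : R / (4 * S) ≤ q := by
      have h1 : R / (2 * S) < q + 1 := by rw [hq]; exact Nat.lt_floor_add_one _
      have h2 : (1 : ℝ) ≤ q := by
        have : 1 ≤ q := by rw [hq]; exact Nat.le_floor (by exact_mod_cast hy1)
        exact_mod_cast this
      have h3 : R / (4 * S) = R / (2 * S) / 2 := by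
        rw [div_div]
        ring_nf
      rw [h3]
      linarith
    have hqS : q * S ≤ R / 2 := by
      rw [le_div_iff₀ h2S] at hq1
      linarith
    have hA := hmany n q (R / 2) hqS
    -- the two finite sets
    have hsfin := lat_fin (F := F) n (R / 2)
    have htfin := lat_fin (F := F) k ((n : ℝ) * X * R + 1)
    have hnXR : 0 ≤ (n : ℝ) * X * R := by positivity
    have hmaps : ∀ x ∈ hsfin.toFinset, (fun i => u i ⬝ᵥ x) ∈ htfin.toFinset := by
      intro x hx
      rw [Set.Finite.mem_toFinset] at hx ⊢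
      refine Ctt.io_le _ _ (by linarith) fun i w => ?_
      have h1 : ((u i ⬝ᵥ x : 𝓞 F) : F) = ∑ j, (u i j : F) * (x j : F) := by
        unfold dotProduct
        rw [coe_sum']
        exact Finset.sum_congr rfl fun j _ => coe_mul' _ _
      rw [h1]
      refine (w_sum_le _ _ w).trans ?_
      calc ∑ j, w ((u i j : F) * (x j : F)) ≤ ∑ _j : Fin n, X * R := by
            refine Finset.sum_le_sum fun j _ => ?_
            rw [map_mul]
            have h2 := (Ctt.w_le (u i) j w).trans (hu i)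
            have h3 := (Ctt.w_le x j w).trans hx
            have h4 : w (x j : F) ≤ R := by linarith
            exact mul_le_mul h2 h4 (apply_nonneg w _) (by linarith)
        _ = n * X * R := by
            rw [Finset.sum_const, Finset.card_univ, Fintype.card_fin, nsmul_eq_mul]
            ring
        _ ≤ n * X * R + 1 := by linarith
    have hpig := Finset.card_le_mul_card_image_of_maps_to hmaps N (by
      intro v _
      rcases Finset.eq_empty_or_nonempty
        (hsfin.toFinset.filter fun x => (fun i => u i ⬝ᵥ x) = v) with he | ⟨x0, hx0⟩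
      · rw [he, Finset.card_empty]
        exact Nat.zero_le _
      · rw [Finset.mem_filter, Set.Finite.mem_toFinset] at hx0
        rw [hN, Set.ncard_eq_toFinset_card _ hblfin]
        refine Finset.card_le_card_of_injOn (fun x => x - x0) (fun x hx => ?_)
          (fun x _ y _ h => sub_left_injective h)
        rw [Finset.mem_coe, Finset.mem_filter, Set.Finite.mem_toFinset] at hx
        rw [Finset.mem_coe, Set.Finite.mem_toFinset]
        refine ⟨fun i => ?_, ?_⟩
        · rw [dotProduct_sub]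
          have h1 := congrFun hx.2 i
          have h2 := congrFun hx0.2 i
          rw [h1, h2, sub_self]
        · rw [lat_io_sub]
          refine (norm_sub_le _ _).trans ?_
          have h1 : ‖io x‖ ≤ R / 2 := hx.1
          have h2 : ‖io x0‖ ≤ R / 2 := hx0.1
          linarith)
    rw [← Set.ncard_eq_toFinset_card _ hsfin, ← Set.ncard_eq_toFinset_card _ htfin] at hpig
    have hT := EngT.ball_le (latP F) k ((n : ℝ) * X * R + 1) (by linarith)
    rw [← hd] at hT
    have hXR : 1 ≤ X * R := by nlinarith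
    have hT2 : (6 * ((n : ℝ) * X * R + 1)) ^ (d * k) ≤ Q * X ^ (d * k) * R ^ (d * k) := by
      rw [hQ, ← mul_pow, ← mul_pow]
      refine pow_le_pow_left₀ (by positivity) ?_ _
      nlinarith
    have hpig' : ({x : Fin n → 𝓞 F | ‖io x‖ ≤ R / 2}.ncard : ℝ) ≤
        N * ({x : Fin k → 𝓞 F | ‖io x‖ ≤ (n : ℝ) * X * R + 1}.ncard : ℝ) := by
      exact_mod_cast hpig
    have hRk : 0 < R ^ (d * k) := by positivity
    have hR0 : 0 < R := by linarith
    have hsplit : R ^ (d * n) = R ^ (d * (n - k)) * R ^ (d * k) := by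
      rw [← pow_add, ← Nat.mul_add, Nat.sub_add_cancel hkn]
    have hq3 : R ^ (d * n) / P ≤ (q : ℝ) ^ (d * n) := by
      rw [hP, ← div_pow]
      exact pow_le_pow_left₀ (by positivity) hq2 _
    have hfinal : R ^ (d * (n - k)) * R ^ (d * k) / P ≤
        N * (Q * X ^ (d * k) * R ^ (d * k)) := by
      rw [← hsplit]
      calc R ^ (d * n) / P ≤ (q : ℝ) ^ (d * n) := hq3
        _ ≤ _ := hA
        _ ≤ _ := hpig'
        _ ≤ N * (6 * ((n : ℝ) * X * R + 1)) ^ (d * k) := by gcongr
        _ ≤ _ := by gcongr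
    rw [div_le_iff₀ (by linarith)] at hfinal
    have h9 : R ^ (d * (n - k)) * R ^ (d * k) ≤ (P * Q * (N * X ^ (d * k))) * R ^ (d * k) := by
      linarith
    exact le_of_mul_le_mul_right h9 hRk

end Pool.Agent.U187.BL
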